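import Pool.Agent.Helper225Sph.Core

/-!
The checker.
-/

set_option autoImplicit false

namespace Pool.Agent.Helper225Sph

open Pool.Agent.Helper144.Sph

/-- The six generators as permutations of the first 24 lines. -/
def gp (g : ℕ) : ℕ :=
  if g = 0 then 984778947329670716585544800892192800 else
  if g = 1 then 727715967042075402361502315122362369 else
  if g = 2 then 984818080968247124523760889962267712 else
  if g = 3 then 813305281892538483939281716941753376 else
  if g = 4 then 982224628934222984534705013900256523 else 467684682920799842898914220739901868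

def gperm (g j : ℕ) : ℕ := Nat.mod (Nat.shiftRight (gp g) (Nat.mul 5 j)) 32

/-- A word in the generators applied to an index. -/
def app : ℕ → ℕ → ℕ → ℕ
  | 0, _, j => j
  | n + 1, w, j =>
    cond (Nat.blt (Nat.mod w 8) 6) (gperm (Nat.mod w 8) (app n (Nat.div w 8) j))
      (app n (Nat.div w 8) j)

/-- Colour of the line `v` in the state `M`. -/
def colOf (M v : ℕ) : ℕ :=
  cond (Nat.testBit M v) 0
    (cond (Nat.testBit M (512 + v)) 1
      (cond (Nat.testBit M (1024 + v)) 2
        (cond (Nat.testBit M (1536 + v)) 3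
          (cond (Nat.testBit M (2048 + v)) 4
            (cond (Nat.testBit M (2560 + v)) 5 6)))))

def pi (p c : ℕ) : ℕ := Nat.mod (Nat.shiftRight p (Nat.mul 3 c)) 8

def piOk (p : ℕ) : Bool :=
  (List.range 6).all fun c => Nat.blt (pi p c) 6 &&
    (List.range 6).all fun c' => Nat.beq c c' || !(Nat.beq (pi p c) (pi p c'))

/-- The permuted colouring is lexicographically smaller. -/
def lexLt (M p w : ℕ) : ℕ → ℕ → Bool
  | 0, _ => false
  | f + 1, j =>
    Nat.blt (colOf M (app 9 w j)) 6 && Nat.blt (colOf M j) 6 &&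
      cond (Nat.blt (pi p (colOf M (app 9 w j))) (colOf M j)) true
        (Nat.beq (pi p (colOf M (app 9 w j))) (colOf M j) && lexLt M p w f (j + 1))

noncomputable def nth (l : List ℕ) : ℕ → ℕ :=
  List.rec (motive := fun _ => ℕ → ℕ) (fun _ => 0)
    (fun x _ ih n => cond (Nat.beq n 0) x (ih (Nat.sub n 1))) l

noncomputable def nthL (l : List (List ℕ)) : ℕ → List ℕ :=
  List.rec (motive := fun _ => ℕ → List ℕ) (fun _ => [])
    (fun x _ ih n => cond (Nat.beq n 0) x (ih (Nat.sub n 1))) l

noncomputable def look (A : List (List ℕ)) (v : ℕ) : ℕ :=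
  nth (nthL A (Nat.div v 16)) (Nat.mod v 16)

noncomputable def kid (rec : ℕ → List ℕ → Option (List ℕ)) (a M v c : ℕ) (o : Option (List ℕ)) :
    Option (List ℕ) :=
  Option.rec (motive := fun _ => Option (List ℕ)) none (fun s =>
    cond (Nat.beq (Nat.land (Nat.shiftRight M (Nat.mul 512 c)) a) 0)
      (rec (Nat.lor M (Nat.shiftLeft 1 (Nat.add (Nat.mul 512 c) v))) s) (some s)) o

def isNone {α : Type} : Option α → Bool
  | none => true
  | some _ => false

def mem (M : ℕ) (L : List ℕ) : Bool := L.any fun m => Nat.beq m M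

def prune (M : ℕ) (s : List ℕ) : Option (List ℕ) :=
  match s with
  | d0 :: d1 :: w0 :: w1 :: w2 :: s' =>
    cond (piOk (Nat.add d0 (Nat.mul 512 d1)) &&
      lexLt M (Nat.add d0 (Nat.mul 512 d1)) (Nat.add w0 (Nat.add (Nat.mul 512 w1)
        (Nat.mul 262144 w2))) 24 0) (some s') none
  | _ => none

noncomputable def kids (ih : ℕ → List ℕ → Option (List ℕ)) (a M x : ℕ) (s : List ℕ) :
    Option (List ℕ) :=
  kid ih a M x 5 (kid ih a M x 4 (kid ih a M x 3 (kid ih a M x 2 (kid ih a M x 1
    (kid ih a M x 0 (some s))))))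

noncomputable def node (A : List (List ℕ)) (L : List ℕ) (ih : ℕ → List ℕ → Option (List ℕ))
    (M : ℕ) (s : List ℕ) : Option (List ℕ) :=
  List.rec (motive := fun _ => Option (List ℕ)) none (fun x s _ =>
    cond (Nat.blt x 344) (kids ih (look A x) M x s)
      (cond (Nat.beq x 1022) (cond (mem M L) (some s) none) (prune M s))) s

/-- The checker. -/
noncomputable def go (A : List (List ℕ)) (L : List ℕ) (n : ℕ) :
    ℕ → List ℕ → Option (List ℕ) :=
  Nat.rec (motive := fun _ => ℕ → List ℕ → Option (List ℕ)) (fun _ _ => none)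
    (fun _ ih M s => node A L ih M s) n

noncomputable def decode (t : List ℕ) (n : ℕ) : ℕ → List ℕ :=
  Nat.rec (motive := fun _ => ℕ → List ℕ) (fun _ => t)
    (fun _ ih n => cond (Nat.ble n 1) t (Nat.mod n 1024 :: ih (Nat.div n 1024))) n

noncomputable def expand (l : List ℕ) : List ℕ :=
  List.rec (motive := fun _ => List ℕ) [] (fun c _ t => decode t 500 c) l

/-! ### The table of lines -/

def rowOk (r : V) (a : ℕ) : List V → Bool
  | [] => Nat.beq a 0
  | w :: ws => cond (Nat.beq (Nat.mod a 2) 1)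
      (decide (dot r w = 0) && decide (w ≠ (0, 0, 0, 0))) true && rowOk r (Nat.div a 2) ws

def ray' (vs : List V) (i : ℕ) : V := vs.getD i (0, 0, 0, 0)

theorem rowOk_spec (r : V) : ∀ (ws : List V) (a : ℕ), rowOk r a ws = true →
    ∀ w, a.testBit w = true → dot r (ray' ws w) = 0 ∧ ray' ws w ≠ (0, 0, 0, 0) ∧ w < ws.length
  | [], a, h, w, hw => by
    have h0 : a = 0 := Nat.eq_of_beq_eq_true h
    subst h0
    simp at hw
  | x :: ws, a, h, w, hw => by
    rw [rowOk, Bool.and_eq_true] at h
    obtain ⟨h1, h2⟩ := h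
    cases w with
    | zero =>
      rw [Nat.testBit_zero, decide_eq_true_eq] at hw
      have hb : Nat.beq (Nat.mod a 2) 1 = true := by
        change Nat.beq (a % 2) 1 = true
        rw [hw]
        rfl
      rw [hb] at h1
      simp only [cond_true, Bool.and_eq_true, decide_eq_true_eq] at h1
      exact ⟨h1.1, h1.2, by simp⟩
    | succ w =>
      rw [Nat.testBit_succ] at hw
      have := rowOk_spec r ws (a / 2) h2 w hw
      exact ⟨this.1, this.2.1, by simpa using this.2.2⟩

structure Tab (A : List (List ℕ)) (vs : List V) : Prop where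
  adj : ∀ v < 344, ∀ w, (look A v).testBit w = true →
    dot (ray' vs v) (ray' vs w) = 0 ∧ ray' vs w ≠ (0, 0, 0, 0) ∧ w < 512
  nz : ∀ v < 344, ray' vs v ≠ (0, 0, 0, 0)
  gen : ∀ g < 6, ∀ j < 24, gperm g j < 24 ∧
    ∃ k : ℤ, k ≠ 0 ∧ act g (ray' vs j) = k • ray' vs (gperm g j)

def genOk (vs : List V) : Bool :=
  (List.range 6).all fun g => (List.range 24).all fun j => Nat.blt (gperm g j) 24 &&
    (decide (act g (ray' vs j) = (1 : ℤ) • ray' vs (gperm g j)) ||
     decide (act g (ray' vs j) = (-1 : ℤ) • ray' vs (gperm g j)) ||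
     decide (act g (ray' vs j) = (2 : ℤ) • ray' vs (gperm g j)) ||
     decide (act g (ray' vs j) = (-2 : ℤ) • ray' vs (gperm g j)) ||
     decide (act g (ray' vs j) = (4 : ℤ) • ray' vs (gperm g j)) ||
     decide (act g (ray' vs j) = (-4 : ℤ) • ray' vs (gperm g j)))

noncomputable def tabOk (A : List (List ℕ)) (vs : List V) : Bool :=
  (List.range 344).all fun v => rowOk (ray' vs v) (look A v) vs && decide (ray' vs v ≠ (0, 0, 0, 0))

theorem Tab.of {A : List (List ℕ)} {vs : List V} (hl : vs.length ≤ 512)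
    (h1 : tabOk A vs = true) (h2 : genOk vs = true) : Tab A vs := by
  have h3 : ∀ v < 344, rowOk (ray' vs v) (look A v) vs = true ∧ ray' vs v ≠ (0, 0, 0, 0) := by
    intro v hv
    have := List.all_eq_true.1 h1 v (List.mem_range.2 hv)
    rwa [Bool.and_eq_true, decide_eq_true_eq] at this
  refine ⟨fun v hv w hw => ?_, fun v hv => (h3 v hv).2, fun g hg j hj => ?_⟩
  · have := rowOk_spec _ _ _ (h3 v hv).1 w hw
    exact ⟨this.1, this.2.1, this.2.2.trans_le hl⟩
  · have := List.all_eq_true.1 h2 g (List.mem_range.2 hg)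
    have := List.all_eq_true.1 this j (List.mem_range.2 hj)
    rw [Bool.and_eq_true, Bool.or_eq_true, Bool.or_eq_true, Bool.or_eq_true, Bool.or_eq_true,
      Bool.or_eq_true, decide_eq_true_eq, decide_eq_true_eq, decide_eq_true_eq,
      decide_eq_true_eq, decide_eq_true_eq, decide_eq_true_eq] at this
    obtain ⟨ha, hb⟩ := this
    refine ⟨by simpa [Nat.blt, Nat.succ_le_iff] using ha, ?_⟩
    rcases hb with ((((hb | hb) | hb) | hb) | hb) | hb
    · exact ⟨1, by norm_num, hb⟩
    · exact ⟨-1, by norm_num, hb⟩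
    · exact ⟨2, by norm_num, hb⟩
    · exact ⟨-2, by norm_num, hb⟩
    · exact ⟨4, by norm_num, hb⟩
    · exact ⟨-4, by norm_num, hb⟩

/-! ### Soundness -/

theorem blt_iff {a b : ℕ} : Nat.blt a b = true ↔ a < b := by
  unfold Nat.blt
  rw [Nat.ble_eq]
  exact Nat.succ_le_iff

section

variable {A : List (List ℕ)} {vs : List V} (T : Tab A vs)

include T in
theorem adm : ∀ (n w : ℕ) (F : V → Fin 6), Good F → ∃ F' : V → Fin 6, Good F' ∧
    ∀ j < 24, app n w j < 24 ∧ F' (ray' vs j) = F (ray' vs (app n w j))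
  | 0, w, F, hF => ⟨F, hF, fun j hj => ⟨hj, rfl⟩⟩
  | n + 1, w, F, hF => by
    by_cases hw : Nat.blt (Nat.mod w 8) 6 = true
    · obtain ⟨F', hF', h⟩ := adm n (Nat.div w 8) _ (hF.act (Nat.mod w 8))
      refine ⟨F', hF', fun j hj => ?_⟩
      obtain ⟨h1, h2⟩ := h j hj
      have h3 := T.gen (Nat.mod w 8) (blt_iff.1 hw) _ h1
      obtain ⟨h4, k, hk, h5⟩ := h3
      have h6 : app (n + 1) w j = gperm (Nat.mod w 8) (app n (Nat.div w 8) j) := by
        rw [app, hw, cond_true]
      rw [h6]
      refine ⟨h4, ?_⟩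
      rw [h2]
      show F (act (Nat.mod w 8) _) = _
      rw [h5, hF.sc k _ hk]
    · obtain ⟨F', hF', h⟩ := adm n (Nat.div w 8) _ hF
      refine ⟨F', hF', fun j hj => ?_⟩
      have h6 : app (n + 1) w j = app n (Nat.div w 8) j := by
        rw [app, Bool.eq_false_of_not_eq_true hw, cond_false]
      rw [h6]
      exact h j hj

/-- The state records true colours. -/
def Inv (vs : List V) (F : V → Fin 6) (M : ℕ) : Prop :=
  ∀ i, M.testBit i = true → (F (ray' vs (i % 512))).val = i / 512

theorem colOf_spec {F : V → Fin 6} {M v : ℕ} (h : Inv vs F M) (hv : v < 512)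
    (hc : colOf M v < 6) : (F (ray' vs v)).val = colOf M v := by
  have key : ∀ c, M.testBit (512 * c + v) = true → (F (ray' vs v)).val = c := by
    intro c hc
    have := h _ hc
    rw [show (512 * c + v) % 512 = v by omega, show (512 * c + v) / 512 = c by omega] at this
    exact this
  unfold colOf at hc ⊢
  rcases h0 : M.testBit v with _ | _
  · rw [h0] at hc
    rcases h1 : M.testBit (512 + v) with _ | _
    · rw [h1] at hc
      rcases h2 : M.testBit (1024 + v) with _ | _
      · rw [h2] at hc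
        rcases h3 : M.testBit (1536 + v) with _ | _
        · rw [h3] at hc
          rcases h4 : M.testBit (2048 + v) with _ | _
          · rw [h4] at hc
            rcases h5 : M.testBit (2560 + v) with _ | _
            · rw [h5] at hc
              simp at hc
            · simpa using key 5 h5
          · simpa using key 4 h4
        · simpa using key 3 h3
      · simpa using key 2 h2
    · simpa using key 1 h1
  · simpa using key 0 (by simpa using h0)

theorem lexLt_spec {F : V → Fin 6} {M p w : ℕ} (h : Inv vs F M) {F' : V → Fin 6}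
    (happ : ∀ j < 24, app 9 w j < 24)
    (hF' : ∀ j < 24, (F' (ray' vs j)).val = pi p (F (ray' vs (app 9 w j))).val) :
    ∀ f j, j + f ≤ 24 → (∀ i < j, F' (ray' vs i) = F (ray' vs i)) → lexLt M p w f j = true →
      ∃ i < 24, (∀ i' < i, F' (ray' vs i') = F (ray' vs i')) ∧ F' (ray' vs i) < F (ray' vs i)
  | 0, j, _, _, h0 => by simp [lexLt] at h0
  | f + 1, j, hj, hi, h0 => by
    rw [lexLt, Bool.and_eq_true, Bool.and_eq_true, blt_iff, blt_iff] at h0
    obtain ⟨⟨h1, h2⟩, h3⟩ := h0
    have hj24 : j < 24 := by omega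
    have e1 := colOf_spec h ((happ j hj24).trans (by norm_num)) h1
    have e2 := colOf_spec h (hj24.trans (by norm_num)) h2
    have e3 := hF' j hj24
    rw [← e1, ← e2, ← e3] at h3
    rcases hb : Nat.blt (F' (ray' vs j)).val (F (ray' vs j)).val with _ | _
    · rw [hb, cond_false, Bool.and_eq_true] at h3
      have e4 : F' (ray' vs j) = F (ray' vs j) := Fin.ext (Nat.eq_of_beq_eq_true h3.1)
      refine lexLt_spec h happ hF' f (j + 1) (by omega) (fun i hi' => ?_) h3.2
      rcases Nat.lt_succ_iff_lt_or_eq.1 hi' with h5 | h5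
      · exact hi i h5
      · rw [h5]; exact e4
    · exact ⟨j, hj24, hi, Fin.lt_def.2 (blt_iff.1 hb)⟩

theorem piOk_spec {p : ℕ} (h : piOk p = true) :
    ∃ q : Fin 6 → Fin 6, Function.Injective q ∧ ∀ c, (q c).val = pi p c.val := by
  have h1 : ∀ c : Fin 6, pi p c.val < 6 ∧ ∀ c' : Fin 6, pi p c.val = pi p c'.val → c = c' := by
    intro c
    have := List.all_eq_true.1 h c.val (List.mem_range.2 c.isLt)
    rw [Bool.and_eq_true, blt_iff] at this
    refine ⟨this.1, fun c' hc' => ?_⟩
    have h2 := List.all_eq_true.1 this.2 c'.val (List.mem_range.2 c'.isLt)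
    rw [Bool.or_eq_true] at h2
    rcases h2 with h2 | h2
    · exact Fin.ext (Nat.eq_of_beq_eq_true h2)
    · rw [hc'] at h2
      simp at h2
  exact ⟨fun c => ⟨pi p c.val, (h1 c).1⟩, fun c c' hcc => (h1 c).2 c' (Fin.mk.inj_iff.1 hcc),
    fun c => rfl⟩

/-- The colours of the first 24 lines. -/
def key (vs : List V) (F : V → Fin 6) : Lex (Fin 24 → Fin 6) := toLex fun j => F (ray' vs j.val)

theorem kid_some {rec : ℕ → List ℕ → Option (List ℕ)} {a M v c : ℕ} {o : Option (List ℕ)}
    {t : List ℕ} (h : kid rec a M v c o = some t) : ∃ s, o = some s ∧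
      (Nat.land (Nat.shiftRight M (Nat.mul 512 c)) a ≠ 0 ∨
        rec (Nat.lor M (Nat.shiftLeft 1 (Nat.add (Nat.mul 512 c) v))) s = some t) := by
  cases o with
  | none => cases h
  | some s =>
    refine ⟨s, rfl, ?_⟩
    change cond (Nat.beq (Nat.land (Nat.shiftRight M (Nat.mul 512 c)) a) 0)
      (rec (Nat.lor M (Nat.shiftLeft 1 (Nat.add (Nat.mul 512 c) v))) s) (some s) = some t at h
    rcases hb : Nat.beq (Nat.land (Nat.shiftRight M (Nat.mul 512 c)) a) 0 with _ | _
    · left
      exact Nat.ne_of_beq_eq_false hb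
    · right
      rw [hb, cond_true] at h
      exact h

include T in
theorem kid_bad {F : V → Fin 6} (hF : Good F) {M v c : ℕ} (hM : Inv vs F M) (hv : v < 344)
    (hc : (F (ray' vs v)).val = c) {rec : ℕ → List ℕ → Option (List ℕ)} {o : Option (List ℕ)}
    (hrec : ∀ M' s t, Inv vs F M' → rec M' s = some t → False)
    {t : List ℕ} (h : kid rec (look A v) M v c o = some t) : False := by
  obtain ⟨s, -, h | h⟩ := kid_some h
  · apply h
    apply Nat.eq_of_testBit_eq
    intro w
    rw [Nat.zero_testBit]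
    by_contra hw
    rw [Bool.not_eq_false] at hw
    change (((M >>> (512 * c)) &&& (look A v)).testBit w) = true at hw
    rw [Nat.testBit_land, Bool.and_eq_true, Nat.testBit_shiftRight] at hw
    obtain ⟨h1, h2⟩ := hw
    obtain ⟨h3, h4, h5⟩ := T.adj v hv w h2
    have h6 := hM _ h1
    rw [show (512 * c + w) % 512 = w by omega, show (512 * c + w) / 512 = c by omega] at h6
    exact hF.ne _ _ (T.nz v hv) h4 h3 (Fin.ext (hc.trans h6.symm))
  · refine hrec _ _ _ ?_ h
    intro i hi
    change ((M ||| (1 <<< (512 * c + v))).testBit i) = true at hi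
    rw [Nat.testBit_lor, Bool.or_eq_true] at hi
    rcases hi with hi | hi
    · exact hM i hi
    · rw [Nat.one_shiftLeft, Nat.testBit_two_pow, decide_eq_true_eq] at hi
      rw [← hi, show (512 * c + v) % 512 = v by omega, show (512 * c + v) / 512 = c by omega]
      exact hc

include T in
theorem prune_sound {F : V → Fin 6} (hF : Good F)
    (hmin : ∀ F' : V → Fin 6, Good F' → ¬ key vs F' < key vs F)
    {M : ℕ} {s t : List ℕ} (hM : Inv vs F M) (h : prune M s = some t) : False := by
  unfold prune at h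
  split at h
  · rename_i d0 d1 w0 w1 w2 s'
    rcases hc : (piOk (Nat.add d0 (Nat.mul 512 d1)) &&
      lexLt M (Nat.add d0 (Nat.mul 512 d1)) (Nat.add w0 (Nat.add (Nat.mul 512 w1)
        (Nat.mul 262144 w2))) 24 0) with _ | _
    · rw [hc] at h
      simp at h
    · rw [Bool.and_eq_true] at hc
      obtain ⟨q, hq, hq'⟩ := piOk_spec hc.1
      obtain ⟨F1, hF1, h1⟩ := adm T 9 (Nat.add w0 (Nat.add (Nat.mul 512 w1)
        (Nat.mul 262144 w2))) F hF
      obtain ⟨i, hi, h2, h3⟩ := lexLt_spec (F' := fun v => q (F1 v)) hM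
        (fun j hj => (h1 j hj).1)
        (fun j hj => by
          show (q (F1 (ray' vs j))).val = _
          rw [hq', (h1 j hj).2]) 24 0 (by norm_num) (by intro i hi; omega) hc.2
      exact hmin _ (hF1.perm q hq) ⟨⟨i, hi⟩, fun i' hi' => h2 i'.val hi', h3⟩
  · simp at h

include T in
theorem go_sound {L : List ℕ} {F : V → Fin 6} (hF : Good F)
    (hmin : ∀ F' : V → Fin 6, Good F' → ¬ key vs F' < key vs F)
    (hL : ∀ m ∈ L, ¬ Inv vs F m) :
    ∀ (f M : ℕ) (s t : List ℕ), Inv vs F M → go A L f M s = some t → False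
  | 0, M, s, t, _, h => by cases h
  | f + 1, M, [], t, _, h => by cases h
  | f + 1, M, x :: s, t, hM, h => by
    have hrec : ∀ M' s t, Inv vs F M' → go A L f M' s = some t → False :=
      fun M' s t => go_sound hF hmin hL f M' s t
    change cond (Nat.blt x 344) (kids (go A L f) (look A x) M x s)
      (cond (Nat.beq x 1022) (cond (mem M L) (some s) none) (prune M s)) = some t at h
    rcases hb : Nat.blt x 344 with _ | _
    · rw [hb, cond_false] at h
      rcases hb2 : Nat.beq x 1022 with _ | _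
      · rw [hb2, cond_false] at h
        exact prune_sound T hF hmin hM h
      · rw [hb2, cond_true] at h
        rcases hb3 : mem M L with _ | _
        · rw [hb3] at h
          simp at h
        · unfold mem at hb3
          obtain ⟨m, hm, hm2⟩ := List.any_eq_true.1 hb3
          have := Nat.eq_of_beq_eq_true hm2
          subst this
          exact hL _ hm hM
    · rw [hb, cond_true] at h
      have hx : x < 344 := blt_iff.1 hb
      unfold kids at h
      obtain ⟨s5, h5, -⟩ := kid_some h
      obtain ⟨s4, h4, -⟩ := kid_some h5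
      obtain ⟨s3, h3, -⟩ := kid_some h4
      obtain ⟨s2, h2, -⟩ := kid_some h3
      obtain ⟨s1, h1, -⟩ := kid_some h2
      have hlt := (F (ray' vs x)).isLt
      rcases hv : (F (ray' vs x)).val with _ | _ | _ | _ | _ | _ | n
      · exact kid_bad T hF hM hx hv hrec h1
      · exact kid_bad T hF hM hx hv hrec h2
      · exact kid_bad T hF hM hx hv hrec h3
      · exact kid_bad T hF hM hx hv hrec h4
      · exact kid_bad T hF hM hx hv hrec h5
      · exact kid_bad T hF hM hx hv hrec h
      · omega

/-- The states refuted by a piece of the certificate. -/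
def Dead (vs : List V) (M : ℕ) : Prop :=
  ∀ F : V → Fin 6, Good F → (∀ F' : V → Fin 6, Good F' → ¬ key vs F' < key vs F) → ¬ Inv vs F M

include T in
theorem dead_of {L : List ℕ} {M f : ℕ} {s : List ℕ} (hL : ∀ m ∈ L, Dead vs m)
    (h : isNone (go A L f M s) = false) : Dead vs M := by
  intro F hF hmin hM
  cases hg : go A L f M s with
  | none => rw [hg] at h; simp [isNone] at h
  | some t => exact go_sound T hF hmin (fun m hm => hL m hm F hF hmin) f M s t hM hg

theorem dn : ∀ m ∈ ([] : List ℕ), Dead vs m := fun _ h => nomatch h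

theorem dc {a : ℕ} {l : List ℕ} (h : Dead vs a) (hl : ∀ m ∈ l, Dead vs m) :
    ∀ m ∈ a :: l, Dead vs m := List.forall_mem_cons.2 ⟨h, hl⟩

theorem not_good_of_dead (h : Dead vs 0) : ¬ ∃ F, Good F := by
  rintro ⟨F0, hF0⟩
  have wf : WellFounded (fun a b : Lex (Fin 24 → Fin 6) => a < b) := wellFounded_lt
  obtain ⟨m, ⟨F, hF, rfl⟩, hm⟩ := wf.has_min {k | ∃ F, Good F ∧ key vs F = k} ⟨_, F0, hF0, rfl⟩
  exact h F hF (fun F' hF' hlt => hm _ ⟨F', hF', rfl⟩ hlt) (fun i hi => by simp at hi)

end

end Pool.Agent.Helper225Sph
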