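import Pool.Agent.Helper144.Sph.Graph

/-!
Colourings of the orthogonality graph of `ℝ^4`, restricted to integer vectors: a verified checker
for refutations of six-colourability that use the symmetries of the 24 root lines of `F_4`.
-/

set_option autoImplicit false

namespace Pool.Agent.Helper225Sph

open Pool.Agent.Helper144.Sph

abbrev V := ℤ × ℤ × ℤ × ℤ

/-- A colouring of the integer vectors which is constant on lines and proper. -/
structure Good (F : V → Fin 6) : Prop where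
  sc : ∀ (k : ℤ) (v : V), k ≠ 0 → F (k • v) = F v
  ne : ∀ v w : V, v ≠ (0, 0, 0, 0) → w ≠ (0, 0, 0, 0) → dot v w = 0 → F v ≠ F w

theorem toE_smul (k : ℤ) (v : V) : toE (k • v) = (k : ℝ) • toE v := by
  obtain ⟨a, b, c, d⟩ := v
  ext i
  fin_cases i <;> simp [toE]

open Classical in
noncomputable def pick (L : Submodule ℝ (EuclideanSpace ℝ (Fin 4))) :
    Metric.sphere (0 : EuclideanSpace ℝ (Fin 4)) 1 :=
  if h : ∃ x : Metric.sphere (0 : EuclideanSpace ℝ (Fin 4)) 1,
      (x : EuclideanSpace ℝ (Fin 4)) ∈ L then h.choose else uv (toE (eb 0)) (toE_ne (eb_ne 0))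

theorem pick_mem {v : V} (hv : v ≠ (0, 0, 0, 0)) :
    ((pick (Submodule.span ℝ {toE v}) : Metric.sphere (0 : EuclideanSpace ℝ (Fin 4)) 1) :
      EuclideanSpace ℝ (Fin 4)) ∈ Submodule.span ℝ {toE v} := by
  have h : ∃ x : Metric.sphere (0 : EuclideanSpace ℝ (Fin 4)) 1,
      (x : EuclideanSpace ℝ (Fin 4)) ∈ Submodule.span ℝ {toE v} :=
    ⟨uv (toE v) (toE_ne hv), Submodule.mem_span_singleton.2 ⟨‖toE v‖⁻¹, rfl⟩⟩
  unfold pick
  rw [dif_pos h]
  exact h.choose_spec

theorem exists_good (C : (orthGraph 4).Coloring (Fin 6)) : ∃ F, Good F := by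
  refine ⟨fun v => C (pick (Submodule.span ℝ {toE v})), ?_, ?_⟩
  · intro k v hk
    have h : Submodule.span ℝ {toE (k • v)} = Submodule.span ℝ {toE v} := by
      rw [toE_smul]
      exact Submodule.span_singleton_smul_eq (IsUnit.mk0 _ (by exact_mod_cast hk)) _
    show C (pick (Submodule.span ℝ {toE (k • v)})) = C (pick (Submodule.span ℝ {toE v}))
    rw [h]
  · intro v w hv hw h
    obtain ⟨a, ha⟩ := Submodule.mem_span_singleton.1 (pick_mem hv)
    obtain ⟨b, hb⟩ := Submodule.mem_span_singleton.1 (pick_mem hw)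
    refine C.valid ?_
    rw [adj_iff, ← ha, ← hb, real_inner_smul_left, real_inner_smul_right, inner_toE, h]
    simp

/-- Six integer similarities. -/
def act (g : ℕ) (v : V) : V :=
  if g = 0 then (-v.1, v.2.1, v.2.2.1, v.2.2.2)
  else if g = 1 then (v.2.1, v.1, v.2.2.1, v.2.2.2)
  else if g = 2 then (v.1, v.2.2.1, v.2.1, v.2.2.2)
  else if g = 3 then (v.1, v.2.1, v.2.2.2, v.2.2.1)
  else if g = 4 then (v.1 - v.2.1 - v.2.2.1 - v.2.2.2, -v.1 + v.2.1 - v.2.2.1 - v.2.2.2,
    -v.1 - v.2.1 + v.2.2.1 - v.2.2.2, -v.1 - v.2.1 - v.2.2.1 + v.2.2.2)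
  else (v.1 + v.2.1, v.1 - v.2.1, v.2.2.1 + v.2.2.2, v.2.2.1 - v.2.2.2)

theorem act_smul (g : ℕ) (k : ℤ) (v : V) : act g (k • v) = k • act g v := by
  obtain ⟨a, b, c, d⟩ := v
  unfold act
  split_ifs <;> ext <;> simp <;> ring

def scale (g : ℕ) : ℤ := if g ≤ 3 then 1 else if g = 4 then 4 else 2

theorem scale_ne (g : ℕ) : scale g ≠ 0 := by
  unfold scale
  split_ifs <;> norm_num

theorem dot_act (g : ℕ) (v w : V) : dot (act g v) (act g w) = scale g * dot v w := by
  obtain ⟨a, b, c, d⟩ := v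
  obtain ⟨a', b', c', d'⟩ := w
  unfold act scale dot
  split_ifs <;> first | omega | (simp only []; ring)

theorem dot_self_pos {v : V} (h : v ≠ (0, 0, 0, 0)) : dot v v ≠ 0 := by
  obtain ⟨a, b, c, d⟩ := v
  intro h0
  apply h
  simp only [dot] at h0
  have ha : a = 0 := by nlinarith [mul_self_nonneg a, mul_self_nonneg b, mul_self_nonneg c, mul_self_nonneg d]
  have hb : b = 0 := by nlinarith [mul_self_nonneg a, mul_self_nonneg b, mul_self_nonneg c, mul_self_nonneg d]
  have hc : c = 0 := by nlinarith [mul_self_nonneg a, mul_self_nonneg b, mul_self_nonneg c, mul_self_nonneg d]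
  have hd : d = 0 := by nlinarith [mul_self_nonneg a, mul_self_nonneg b, mul_self_nonneg c, mul_self_nonneg d]
  simp [ha, hb, hc, hd]

theorem act_ne (g : ℕ) {v : V} (h : v ≠ (0, 0, 0, 0)) : act g v ≠ (0, 0, 0, 0) := by
  intro h0
  have h1 := dot_act g v v
  rw [h0] at h1
  have h2 : dot ((0, 0, 0, 0) : V) (0, 0, 0, 0) = 0 := rfl
  rw [h2] at h1
  exact mul_ne_zero (scale_ne g) (dot_self_pos h) h1.symm

theorem Good.act {F : V → Fin 6} (hF : Good F) (g : ℕ) : Good (fun v => F (act g v)) := by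
  refine ⟨?_, ?_⟩
  · intro k v hk
    show F (Helper225Sph.act g (k • v)) = F (Helper225Sph.act g v)
    rw [act_smul]
    exact hF.sc k _ hk
  · intro v w hv hw h
    refine hF.ne _ _ (act_ne g hv) (act_ne g hw) ?_
    rw [dot_act, h, mul_zero]

theorem Good.perm {F : V → Fin 6} (hF : Good F) (p : Fin 6 → Fin 6) (hp : Function.Injective p) :
    Good (fun v => p (F v)) :=
  ⟨fun k v hk => congrArg p (hF.sc k v hk), fun v w hv hw h h' => hF.ne v w hv hw h (hp h')⟩

end Pool.Agent.Helper225Sph
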