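import Pool.Agent.Helper225Sph.Data
import Pool.Agent.Helper225Sph.Check

set_option autoImplicit false
set_option maxRecDepth 100000

namespace Pool.Agent.Helper225Sph

theorem vs_len : vs.length = 344 := by decide +kernel

theorem gen_ok : genOk vs = true := by decide +kernel

theorem tab_ok : tabOk adjTab vs = true := by decide +kernel

theorem tab : Tab adjTab vs := Tab.of (by rw [vs_len]; norm_num) tab_ok gen_ok

end Pool.Agent.Helper225Sph
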